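import Pool.Agent.H97.WIter

set_option autoImplicit false

namespace Pool.Agent.Results.MP_17b696_nt.SmallTermTerminates

open Pool.Agent.H97.WIter

theorem result (n : ℕ) (hn : 2 ≤ n)
    (h : ∃ k : ℕ,
      (fun m : ℕ => ∑ p ∈ m.primeFactors, m / p ^ (m.factorization p))^[k] n ≤ 2 * 10 ^ 56 ∨
      (fun m : ℕ => ∑ p ∈ m.primeFactors, m / p ^ (m.factorization p))^[k] n *
        (fun m : ℕ => ∑ p ∈ m.primeFactors, m / p ^ (m.factorization p))^[k + 1] n
          < primorial 277) :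
    ∃ j : ℕ, (fun m : ℕ => ∑ p ∈ m.primeFactors, m / p ^ (m.factorization p))^[j] n = 1 :=
  main n hn h

end Pool.Agent.Results.MP_17b696_nt.SmallTermTerminates
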