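import Pool.Agent.H31.SO.Orb

/-!
The function `w` of Erdos: all cycles together with any single sequence of iterates occupy at most a
`10^(-76)` part of the integers up to `N`, for all large `N`.
-/

set_option autoImplicit false

namespace Pool.Agent.Results.MP_17b696_nt.SparseOrbits

/-- `w m` is the sum of `m / p ^ a` over the prime powers `p ^ a` exactly dividing `m`. -/
def w (m : ℕ) : ℕ := ∑ p ∈ m.primeFactors, m / p ^ (m.factorization p)

open Classical in
/-- There is `N0` such that for all `N ≥ N0` and every `m` at most `N / 10^76` of the `n ≤ N` lie on a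
cycle of `w` or are terms of the sequence `m, w m, w (w m), ...`. -/
theorem result : ∃ N0 : ℕ, ∀ N : ℕ, N0 ≤ N → ∀ m : ℕ,
    (((Finset.Icc 1 N).filter
      (fun n : ℕ => (∃ k, 1 ≤ k ∧ w^[k] n = n) ∨ ∃ k, w^[k] m = n)).card : ℝ) ≤ N / 10 ^ 76 :=
  Pool.Agent.H31.SO.orbits

end Pool.Agent.Results.MP_17b696_nt.SparseOrbits
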