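import Pool.Agent.H31.JL.MLaw

/-!
Two steps of the function `w` of Erdos: the pair `w(n) / n`, `w(w(n)) / w(n)` has an explicit limit law on the plane; its support
is the closed quadrant, and no graph of a Borel function has positive mass.
-/

set_option autoImplicit false

namespace Pool.Agent.Results.MP_17b696_nt.TwoStepLaw

open Filter Topology MeasureTheory

/-- `w m` is the sum of `m / p ^ a` over the prime powers `p ^ a` exactly dividing `m`. -/
def w (m : ℕ) : ℕ := ∑ p ∈ m.primeFactors, m / p ^ (m.factorization p)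

open Classical in
/-- The pair `w n / n`, `w (w n) / w n` has a limit law `μ`: natural densities for all sets `A` with `μ (frontier A) = 0`. The
characteristic function of `μ` is a convergent product over the primes: `μ` is the law of the sum over `p` of independent vectors
which are `(0, 0)` with probability `(1 - 1 / p) ^ 2`, `(p ^ (-k), 0)` with probability `(1 - 1 / p) / p ^ k` and `(0, p ^ (-k))`
with probability `(1 - 1 / p) ^ 2 / p ^ k`, `k ≥ 1`. An open set is `μ`-null only if it misses the closed quadrant, graphs of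
Borel functions over both axes and the curves `x y = t` are `μ`-null, and the mass of `x y ≤ 1` is at least `1 - 10^(-80)`. -/
theorem result :
    ∃ μ : Measure (ℝ × ℝ), IsProbabilityMeasure μ ∧
      (∀ A : Set (ℝ × ℝ), μ (frontier A) = 0 → Tendsto (fun N : ℕ =>
        (((Finset.Icc 1 N).filter (fun n : ℕ =>
          ((w n : ℝ) / n, (w (w n) : ℝ) / w n) ∈ A)).card : ℝ) / N) atTop (𝓝 (μ.real A))) ∧
      (∀ s t : ℝ, Tendsto (fun z : ℕ => ∏ p ∈ Nat.primesBelow z, ((1 - 1 / (p : ℂ)) ^ 2 +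
        ∑' k : ℕ, ((1 - 1 / (p : ℂ)) * Complex.exp (s / p ^ (k + 1) * Complex.I) +
          (1 - 1 / (p : ℂ)) ^ 2 * Complex.exp (t / p ^ (k + 1) * Complex.I)) / p ^ (k + 1)))
        atTop (𝓝 (∫ x, Complex.exp ((s * x.1 + t * x.2) * Complex.I) ∂μ))) ∧
      (∀ U : Set (ℝ × ℝ), IsOpen U → (μ U = 0 ↔ Disjoint U (Set.Ici 0 ×ˢ Set.Ici 0))) ∧
      (∀ f : ℝ → ℝ, Measurable f → μ {z | z.2 = f z.1} = 0 ∧ μ {z | z.1 = f z.2} = 0) ∧
      (∀ t : ℝ, μ {z | z.1 * z.2 = t} = 0) ∧
      1 - 1 / 10 ^ 80 ≤ μ.real {z | z.1 * z.2 ≤ 1} := by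
  obtain ⟨μ, h1, h2, h3, h4, h5, h6, h7⟩ := Pool.Agent.H31.JL.mlaw
  refine ⟨μ, h1, h2, fun s t => ?_, h3, h4, h5, h6⟩
  have h8 := h7 s t
  unfold Pool.Agent.H31.JL.cf at h8
  push_cast at h8
  exact h8

end Pool.Agent.Results.MP_17b696_nt.TwoStepLaw
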